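import Pool.Agent.N909.CX.Def

set_option autoImplicit false
set_option linter.unusedSectionVars false

/-! # Infinitely many scales (CX/7) -/

open MeasureTheory Filter Set ProbabilityTheory MeasurableSpace
open scoped ENNReal Topology

namespace Pool.Agent.N91.CX

open Pool.Agent.N909.CM Pool.Agent.N909.CL Pool.Agent.N909.CX

/-- the sigma algebra generated by the `B p`, `p ∈ S` -/
abbrev sig {Ω : Type} (B : ℕ → Set Ω) (S : Set ℕ) : MeasurableSpace Ω :=
  generateFrom {t | ∃ n ∈ S, B n = t}

theorem sig_mono {Ω : Type} (B : ℕ → Set Ω) {S T : Set ℕ} (h : S ⊆ T) : sig B S ≤ sig B T :=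
  generateFrom_mono (fun _ ⟨n, hn, e⟩ => ⟨n, h hn, e⟩)

theorem meas_Rz {Ω : Type} (B : ℕ → Set Ω) (S : Set ℕ) (w : List Bool) :
    ∀ n : ℕ, (∀ p ∈ pos n w, p ∈ S) → MeasurableSet[sig B S] (Rz B n w) := by
  induction w with
  | nil => intro n _; exact MeasurableSet.univ
  | cons d w ih =>
    intro n hn
    have h1 : MeasurableSet[sig B S] (B n) :=
      measurableSet_generateFrom ⟨n, hn n (by simp [pos]), rfl⟩
    have h2 := ih (stp d n) (fun p hp => hn p (by simp [pos, hp]))
    show MeasurableSet[sig B S] ({ω | ω ∈ B n ↔ d = true} ∩ Rz B (stp d n) w)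
    refine MeasurableSet.inter ?_ h2
    cases d with
    | true =>
      have : {ω | ω ∈ B n ↔ true = true} = B n := by ext ω; simp
      rw [this]; exact h1
    | false =>
      have : {ω | ω ∈ B n ↔ false = true} = (B n)ᶜ := by ext ω; simp
      rw [this]; exact h1.compl

theorem t : Stm7 := by
  intro Ω m0 μ _ B hB hind I hI G hG c hc hev
  set U : ℕ → Set Ω := fun j => ⋃ x ∈ G j, Rz B x.1 x.2 with hU
  have hUm : ∀ j, MeasurableSet[sig B (I j : Set ℕ)] (U j) := by
    intro j
    refine Finset.measurableSet_biUnion _ fun x hx => ?_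
    exact meas_Rz B _ x.2 x.1 (fun p hp => by exact_mod_cast hG j x hx p hp)
  have hle : ∀ S : Set ℕ, sig B S ≤ m0 := by
    intro S
    refine generateFrom_le ?_
    rintro _ ⟨n, _, rfl⟩
    exact hB n
  have hUm0 : ∀ j, MeasurableSet (U j) := fun j => hle _ _ (hUm j)
  have hindU : iIndepSet U μ := by
    rw [iIndepSet_iff_meas_biInter hUm0]
    intro s
    induction s using Finset.induction_on with
    | empty => simp
    | insert a s ha ih =>
      rw [Finset.prod_insert ha, ← ih, Finset.set_biInter_insert]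
      have hd : Disjoint ((I a : Finset ℕ) : Set ℕ) (⋃ i ∈ s, ((I i : Finset ℕ) : Set ℕ)) := by
        rw [Set.disjoint_iUnion₂_right]
        intro i hi
        have hne : a ≠ i := fun e => ha (e ▸ hi)
        exact_mod_cast hI a i hne
      have h1 := hind.indep_generateFrom_of_disjoint hB _ _ hd
      have h2 : MeasurableSet[sig B (⋃ i ∈ s, ((I i : Finset ℕ) : Set ℕ))] (⋂ i ∈ s, U i) := by
        refine Finset.measurableSet_biInter _ fun i hi => ?_
        exact sig_mono B (Set.subset_biUnion_of_mem (u := fun i => ((I i : Finset ℕ) : Set ℕ)) hi) _ (hUm i)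
      exact (Indep_iff _ _ _).1 h1 _ _ (hUm a) h2
  have hsum : ∑' n, μ (U n) = ∞ := by
    by_contra hne
    have h0 := ENNReal.tendsto_atTop_zero_of_tsum_ne_top hne
    have h3 : ∀ᶠ j in atTop, μ (U j) < ENNReal.ofReal c :=
      h0.eventually (gt_mem_nhds (by simpa using hc))
    obtain ⟨j, hj1, hj2⟩ := (h3.and hev).exists
    have h4 : ENNReal.ofReal c ≤ μ (U j) := by
      rw [← ofReal_measureReal (μ := μ) (s := U j) (measure_ne_top μ (U j))]
      exact ENNReal.ofReal_le_ofReal hj2
    exact absurd hj1 (not_lt.2 h4)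
  have h5 := measure_limsup_eq_one hUm0 hindU hsum
  have h6 : limsup U atTop ∈ ae μ :=
    (mem_ae_iff_prob_eq_one (MeasurableSet.measurableSet_limsup hUm0)).2 h5
  filter_upwards [h6] with ω hω
  exact mem_limsup_iff_frequently_mem.1 hω

end Pool.Agent.N91.CX
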